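import Mathlib
import Pool.Agent.Run7.h720.VMain

set_option autoImplicit false

/-!
# Vojta's inequality with the truncated counting function at the sparse rational points of all smooth
# projective varieties over number fields, for all divisors with strict normal crossings

`X` is a smooth projective variety of dimension `n` over the number field `K` in `ℙ^(n + s)` with the
equations `G k = 0`, and `D = D_1 + ⋯ + D_q` a divisor of `X` with strict normal crossings, `D_i` the
subvariety of `X` with the equations `F i j = 0`, `j < w`, `F i j` of degree `d i`.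
-/

namespace Pool.Agent.Results.MP_9ec3f0_nt.SparsePointsAllVarieties

open MvPolynomial NumberField IsDedekindDomain Height
open Pool.Agent.K1H83.VN

section field
variable {K : Type} [Field K]

/-! ### The pair -/

/-- The dimension of `X` is at least `n`: some `n + 1` coordinates are algebraically independent on
the cone over `X`. -/
def DimGE {m g : ℕ} (n : ℕ) (G : Fin g → MvPolynomial (Fin m) K) : Prop :=
  ∃ J : Fin (n + 1) → Fin m, ∀ P : MvPolynomial (Fin (n + 1)) K,
    (∀ (L : Type) [Field L] [Algebra K L] (z : Fin m → L), (∀ k, aeval z (G k) = 0) →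
      aeval (fun i => z (J i)) P = 0) → P = 0

/-- `X` is smooth of codimension `s` and `D` has strict normal crossings on `X`: at every point
`z` of `X` over every extension field, for suitable `s` equations of `X` and one equation of each
component of `D` through `z`, all gradients at `z` are linearly independent. -/
def SmoothPair {m g q w : ℕ} (s : ℕ) (G : Fin g → MvPolynomial (Fin m) K)
    (F : Fin q → Fin w → MvPolynomial (Fin m) K) : Prop :=
  ∀ (L : Type) [Field L] [Algebra K L] (z : Fin m → L), z ≠ 0 → (∀ i, aeval z (G i) = 0) →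
    ∃ (a : Fin s → Fin g) (b : Fin q → Fin w), LinearIndependent L
      (Sum.elim (fun i => fun y => aeval z (pderiv y (G (a i))))
        (fun i : {i : Fin q // ∀ j, aeval z (F i j) = 0} =>
          fun y => aeval z (pderiv y (F i.1 (b i.1)))))

/-- The columns of `A` are a basis of the tangent space of the affine cone over `X` at `x` (the
vectors orthogonal to all gradients of equations), `X` being smooth of dimension `n` at `x`. -/
def IsTangentBasis {m n g : ℕ} (G : Fin g → MvPolynomial (Fin m) K) (x : Fin m → K)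
    (A : Matrix (Fin m) (Fin (n + 1)) K) : Prop :=
  LinearIndependent K (fun (c : Fin (n + 1)) (j : Fin m) => A j c) ∧
    ∀ k c, ∑ j, aeval x (pderiv j (G k)) * A j c = 0

/-- The local height `λ_{Z,v}(x)` at the absolute value `v` of the subvariety `Z` with the equations
`F j = 0`, forms of degree `d`. -/
noncomputable def localHeight {m w : ℕ} (F : Fin w → MvPolynomial (Fin m) K) (d : ℕ)
    (x : Fin m → K) (v : AbsoluteValue K ℝ) : ℝ :=
  Real.log ((⨆ i, v (x i)) ^ d / ⨆ j, v (aeval x (F j)))

variable [NumberField K]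

/-! ### Heights and counting functions, relative to `K` -/

/-- The height `h_K(x)` for the canonical class `K` of `X`. The Gauss map `γ` sends a point of `X` to
its embedded tangent space, `γ^* O(1) = K + (n + 1) H` for the hyperplane class `H`, and `h_K(x)` is
the height of `γ(x)` (whose Plücker coordinates are the maximal minors of `A`) minus
`(n + 1) h(x)`. -/
noncomputable def canonicalHeight {m n : ℕ} (x : Fin m → K) (A : Matrix (Fin m) (Fin (n + 1)) K) :
    ℝ :=
  logHeight (fun J : Fin (n + 1) → Fin m => (A.submatrix J id).det) - (n + 1) * logHeight x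

/-- The height `h_D(x)` of `x` with respect to `D = D_1 + ⋯ + D_q`: the sum of the local heights over
all places. (Mathlib's absolute value of a finite place is normalised so that the product formula
holds without exponents.) -/
noncomputable def divisorHeight {m q w : ℕ} (F : Fin q → Fin w → MvPolynomial (Fin m) K)
    (d : Fin q → ℕ) (x : Fin m → K) : ℝ :=
  ∑ i, (∑ v : InfinitePlace K, (v.mult : ℝ) * localHeight (F i) (d i) x v.1 +
    ∑ᶠ v : HeightOneSpectrum (𝓞 K), localHeight (F i) (d i) x (FinitePlace.mk v).1)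

/-- The local height `λ_{D,v}(x)` at the prime `v`. -/
noncomputable def lam {m q w : ℕ} (F : Fin q → Fin w → MvPolynomial (Fin m) K)
    (d : Fin q → ℕ) (v : HeightOneSpectrum (𝓞 K)) (x : Fin m → K) : ℝ :=
  ∑ i, localHeight (F i) (d i) x (FinitePlace.mk v).1

/-- The truncated counting function `N_T^(1)(D, x)`: the sum of `min (log N(v), λ_{D,v}(x))` over the
primes `v` outside `T`. -/
noncomputable def truncated {m q w : ℕ} (T : Set (HeightOneSpectrum (𝓞 K)))
    (F : Fin q → Fin w → MvPolynomial (Fin m) K) (d : Fin q → ℕ) (x : Fin m → K) : ℝ :=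
  ∑ᶠ (v : HeightOneSpectrum (𝓞 K)) (_ : v ∉ T),
    min (Real.log (Ideal.absNorm v.asIdeal : ℝ)) (lam F d v x)

/-- The order of the zero of `z` at a prime times the logarithm of the norm of the prime. -/
noncomputable def ord (v : HeightOneSpectrum (𝓞 K)) (z : K) : ℝ := -Real.log (FinitePlace.mk v z)

/-- The counting function of the zeros of `z` outside `T`. -/
noncomputable def counting (T : Set (HeightOneSpectrum (𝓞 K))) (z : K) : ℝ :=
  ∑ᶠ (v : HeightOneSpectrum (𝓞 K)) (_ : v ∉ T), ord v z

/-! ### Short sums -/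

/-- `z` is a sum of `r` terms `c * γ` with `γ` in `Γ` and `c` of (multiplicative, relative) height at
most `R`. -/
def IsShort (Γ : Subgroup Kˣ) (r : ℕ) (R : ℝ) (z : K) : Prop :=
  ∃ (c : Fin r → K) (γ : Fin r → Kˣ), (∀ j, γ j ∈ Γ) ∧ (∀ j, mulHeight₁ (c j) ≤ R) ∧
    z = ∑ j, c j * (γ j : K)

/-- The vector `x` is a sum of `r` terms `γ • c` with `γ` in `Γ` and `c` a vector with entries of
(multiplicative, relative) height at most `R`. -/
def IsShortPoint {m : ℕ} (Γ : Subgroup Kˣ) (r : ℕ) (R : ℝ) (x : Fin m → K) : Prop :=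
  ∃ (c : Fin r → Fin m → K) (γ : Fin r → Kˣ), (∀ j, γ j ∈ Γ) ∧ (∀ j i, mulHeight₁ (c j i) ≤ R) ∧
    ∀ i, x i = ∑ j, c j i * (γ j : K)

/-! ### Auxiliary lemmas -/

theorem divisorHeight_eq {m q w : ℕ} (F : Fin q → Fin w → MvPolynomial (Fin m) K)
    (d : Fin q → ℕ) (x : Fin m → K) (hx : x ≠ 0) (hF : ∀ i, ∃ j, aeval x (F i j) ≠ 0) :
    divisorHeight F d x =
      ∑ i, (d i * logHeight x - logHeight fun j => aeval x (F i j)) := by
  unfold divisorHeight
  refine Finset.sum_congr rfl fun i _ => ?_
  obtain ⟨j, hj⟩ := hF i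
  have hy : (fun j => aeval x (F i j)) ≠ 0 := ne_of_coord hj
  have h1 : ∀ f : AbsoluteValue K ℝ, localHeight (F i) (d i) x f =
      d i * Real.log (nm f x) - Real.log (nm f fun j => aeval x (F i j)) := by
    intro f
    show Real.log (nm f x ^ d i / nm f fun j => aeval x (F i j)) = _
    rw [Real.log_div (pow_pos (nm_pos f hx) _).ne' (nm_pos f hy).ne', Real.log_pow]
  have h2 : (Function.support fun v : HeightOneSpectrum (𝓞 K) =>
      (d i : ℝ) * Real.log (nm (Pool.Agent.W180.OP.fv v) x)).Finite := by
    refine (nm_support x hx).subset fun v hv h => hv ?_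
    show (d i : ℝ) * Real.log (nm (Pool.Agent.W180.OP.fv v) x) = 0
    rw [h, Real.log_one, mul_zero]
  have h2' : (Function.support fun v : HeightOneSpectrum (𝓞 K) =>
      Real.log (nm (Pool.Agent.W180.OP.fv v) x)).Finite := by
    refine (nm_support x hx).subset fun v hv h => hv ?_
    show Real.log (nm (Pool.Agent.W180.OP.fv v) x) = 0
    rw [h, Real.log_one]
  have h3 : (Function.support fun v : HeightOneSpectrum (𝓞 K) =>
      Real.log (nm (Pool.Agent.W180.OP.fv v) fun j => aeval x (F i j))).Finite := by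
    refine (nm_support _ hy).subset fun v hv h => hv ?_
    show Real.log (nm (Pool.Agent.W180.OP.fv v) fun j => aeval x (F i j)) = 0
    rw [h, Real.log_one]
  rw [logHeight_fin x hx, logHeight_fin _ hy]
  have h4 : ∑ᶠ v : HeightOneSpectrum (𝓞 K), localHeight (F i) (d i) x (FinitePlace.mk v).1 =
      d i * (∑ᶠ v : HeightOneSpectrum (𝓞 K), Real.log (nm (Pool.Agent.W180.OP.fv v) x)) -
        ∑ᶠ v : HeightOneSpectrum (𝓞 K),
          Real.log (nm (Pool.Agent.W180.OP.fv v) fun j => aeval x (F i j)) := by
    rw [mul_finsum' _ _ h2', ← finsum_sub_distrib h2 h3]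
    exact finsum_congr fun v => h1 _
  rw [h4]
  have h5 : ∑ v : InfinitePlace K, (v.mult : ℝ) * localHeight (F i) (d i) x v.1 =
      d i * (∑ v : InfinitePlace K, (v.mult : ℝ) * Real.log (nm v.1 x)) -
        ∑ v : InfinitePlace K, (v.mult : ℝ) * Real.log (nm v.1 fun j => aeval x (F i j)) := by
    rw [Finset.mul_sum, ← Finset.sum_sub_distrib]
    refine Finset.sum_congr rfl fun v _ => ?_
    rw [h1]
    ring
  rw [h5]
  ring

theorem lam_support {m q w : ℕ} (F : Fin q → Fin w → MvPolynomial (Fin m) K)
    (d : Fin q → ℕ) (x : Fin m → K) (hx : x ≠ 0) (hF : ∀ i, ∃ j, aeval x (F i j) ≠ 0) :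
    {v : HeightOneSpectrum (𝓞 K) | lam F d v x ≠ 0}.Finite := by
  have hfin : (⋃ i, {v : HeightOneSpectrum (𝓞 K) |
      nm (Pool.Agent.W180.OP.fv v) (fun j => aeval x (F i j)) ≠ 1}).Finite :=
    Set.finite_iUnion fun i => nm_support _ (by
      obtain ⟨j, hj⟩ := hF i
      exact ne_of_coord hj)
  refine ((nm_support x hx).union hfin).subset fun v hv => ?_
  by_contra hcon
  rw [Set.mem_union, not_or, Set.mem_iUnion] at hcon
  obtain ⟨h1, h2⟩ := hcon
  push Not at h2
  apply hv
  unfold lam
  refine Finset.sum_eq_zero fun i _ => ?_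
  have e1 : nm (Pool.Agent.W180.OP.fv v) x = 1 := not_not.1 h1
  have e2 : nm (Pool.Agent.W180.OP.fv v) (fun j => aeval x (F i j)) = 1 := not_not.1 (h2 i)
  show Real.log (nm (Pool.Agent.W180.OP.fv v) x ^ d i /
    nm (Pool.Agent.W180.OP.fv v) fun j => aeval x (F i j)) = 0
  rw [e1, e2, one_pow, div_one, Real.log_one]

end field

/-- **Main theorem.** Let `X` be a smooth projective variety of dimension `n ≥ 1` over the number
field `K` in `ℙ^(n + s)` and `D` a divisor of `X` with strict normal crossings. Let `T` be a finite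
set of primes of `K`, `Γ` a finitely generated subgroup of the multiplicative group of `K`, `r` and
`M` natural numbers, `B` and `ε > 0` real numbers. There are `δ > 0`, a form `Φ` that does not vanish
on `X` and a constant `C` such that the following holds for all points `x` of `X` over `K` off
`Φ = 0` and off all `D_i`, and all nonzero `ρ` and `τ` in `K`, integral outside `T`, such that `x`
and `ρ` are sums of `r` terms with coefficients of height at most `B H(x) ^ δ` and
`λ_{D,v}(x) ≤ M ord_v(ρ) + ord_v(τ)` for all primes `v` outside `T`: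
* `h_K(x) + h_D(x) ≤ N_T(ρ) + N_T(τ) + ε h(x) + C`;
* if `ord_v(ρ) ≤ min (log N(v), λ_{D,v}(x))` for all primes `v` outside `T`, then
  `h_K(x) + h_D(x) ≤ N_T^(1)(D, x) + N_T(τ) + ε h(x) + C`. -/
theorem result (K : Type) [Field K] [NumberField K] (n s g q w : ℕ) (hn : 1 ≤ n)
    (G : Fin g → MvPolynomial (Fin (n + s + 1)) K) (e : Fin g → ℕ)
    (hG : ∀ k, (G k).IsHomogeneous (e k))
    (F : Fin q → Fin w → MvPolynomial (Fin (n + s + 1)) K) (d : Fin q → ℕ)
    (hF : ∀ i j, (F i j).IsHomogeneous (d i)) (hdim : DimGE n G) (hsm : SmoothPair s G F)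
    (T : Set (HeightOneSpectrum (𝓞 K))) (hT : T.Finite) (Γ : Subgroup Kˣ) (hΓ : Γ.FG)
    (r M : ℕ) (B ε : ℝ) (hε : 0 < ε) :
    ∃ (δ : ℝ) (Φ : MvPolynomial (Fin (n + s + 1)) K) (k : ℕ) (C : ℝ), 0 < δ ∧
      Φ.IsHomogeneous k ∧
      (∃ (L : Type) (_ : Field L) (_ : Algebra K L) (z : Fin (n + s + 1) → L),
        (∀ k, aeval z (G k) = 0) ∧ aeval z Φ ≠ 0) ∧
      ∀ (x : Fin (n + s + 1) → K) (ρ τ : K), (∀ k, aeval x (G k) = 0) → aeval x Φ ≠ 0 →
        x ≠ 0 → (∀ i, ∃ j, aeval x (F i j) ≠ 0) → ρ ≠ 0 → τ ≠ 0 →
        (∀ v ∉ T, 0 ≤ ord v ρ) → (∀ v ∉ T, 0 ≤ ord v τ) →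
        IsShortPoint Γ r (B * mulHeight x ^ δ) x → IsShort Γ r (B * mulHeight x ^ δ) ρ →
        (∀ v ∉ T, lam F d v x ≤ M * ord v ρ + ord v τ) →
        ∀ A : Matrix (Fin (n + s + 1)) (Fin (n + 1)) K, IsTangentBasis G x A →
          canonicalHeight x A + divisorHeight F d x ≤
            counting T ρ + counting T τ + ε * logHeight x + C ∧
          ((∀ v ∉ T, ord v ρ ≤ min (Real.log (Ideal.absNorm v.asIdeal : ℝ)) (lam F d v x)) →
            canonicalHeight x A + divisorHeight F d x ≤
              truncated T F d x + counting T τ + ε * logHeight x + C) := by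
  classical
  obtain ⟨J, hJ⟩ := hdim
  obtain ⟨Φ, k, δ, C, hΦ0, hΦh, hδ, hmain⟩ := Pool.Agent.Run7.h720.var_main K Γ hΓ T hT hn G F hsm
    (by omega) e hG d hF J r M B ε hε
  refine ⟨δ, rename J Φ, k, C, hδ, hΦh.rename_isHomogeneous, ?_, ?_⟩
  · by_contra hcon
    push Not at hcon
    apply hΦ0
    refine hJ Φ fun L _ _ z hz => ?_
    have h1 := hcon L inferInstance inferInstance z hz
    rwa [aeval_rename] at h1
  · intro x ρ τ hxG hxΦ hx0 hxF hρ0 hτ0 hρT hτT hsx hsρ hdiv A hA
    have hord : ∀ (v : HeightOneSpectrum (𝓞 K)) (z : K), z ≠ 0 → 0 ≤ ord v z →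
        Pool.Agent.W180.OP.fv v z ≤ 1 := by
      intro v z hz hv
      have h1 : ord v z = -Real.log (Pool.Agent.W180.OP.fv v z) := rfl
      rw [h1] at hv
      by_contra hcon
      push Not at hcon
      have := Real.log_pos hcon
      linarith
    rw [aeval_rename] at hxΦ
    have key := hmain x ρ τ A hx0 hxG hxΦ hxF hρ0 hτ0 (fun v hv => hord v ρ hρ0 (hρT v hv))
      (fun v hv => hord v τ hτ0 (hτT v hv)) hsx hsρ (by
        intro v hv
        have h1 := hdiv v hv
        have h2 : (M : ℝ) * ord v ρ + ord v τ =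
            -(M * Real.log (Pool.Agent.W180.OP.fv v ρ) +
              Real.log (Pool.Agent.W180.OP.fv v τ)) := by
          have e1 : ord v ρ = -Real.log (Pool.Agent.W180.OP.fv v ρ) := rfl
          have e2 : ord v τ = -Real.log (Pool.Agent.W180.OP.fv v τ) := rfl
          rw [e1, e2]
          ring
        rw [h2] at h1
        exact h1) hA.1 hA.2
    have hfirst : canonicalHeight x A + divisorHeight F d x ≤
        counting T ρ + counting T τ + ε * logHeight x + C := by
      rw [divisorHeight_eq F d x hx0 hxF]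
      exact key
    refine ⟨hfirst, fun hle => hfirst.trans ?_⟩
    have h5 : counting T ρ ≤ truncated T F d x := by
      refine finsum_le_finsum' ?_ ?_ fun v => ?_
      · refine (Pool.Agent.Run7.h720.log_fv_support ρ hρ0).subset fun v hv h => hv ?_
        have h2 : Real.log (Pool.Agent.W180.OP.fv v ρ) = 0 := h
        have h3 : ord v ρ = 0 := by
          show -Real.log (Pool.Agent.W180.OP.fv v ρ) = 0
          rw [h2, neg_zero]
        show ∑ᶠ (_ : v ∉ T), ord v ρ = 0
        rw [h3]
        exact finsum_zero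
      · refine (lam_support F d x hx0 hxF).subset fun v hv h => hv ?_
        have h3 : min (Real.log (Ideal.absNorm v.asIdeal : ℝ)) (lam F d v x) = 0 := by
          rw [h]
          refine min_eq_right (Real.log_nonneg ?_)
          have h5 : Ideal.absNorm v.asIdeal ≠ 0 := fun h => v.ne_bot (Ideal.absNorm_eq_zero_iff.1 h)
          exact_mod_cast Nat.one_le_iff_ne_zero.2 h5
        show ∑ᶠ (_ : v ∉ T), min (Real.log (Ideal.absNorm v.asIdeal : ℝ)) (lam F d v x) = 0
        rw [h3]
        exact finsum_zero
      · rw [finsum_eq_if, finsum_eq_if]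
        split_ifs with hv
        · exact le_rfl
        · exact hle v hv
    linarith

end Pool.Agent.Results.MP_9ec3f0_nt.SparsePointsAllVarieties
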